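import Pool.Agent.helper94.PL.Spec

/-!
# Module AL1 of project pl2 (MP_af9036_an): length and area on the rectangle
-/

set_option autoImplicit false

open Complex Metric Set Filter Topology MeasureTheory MPS
open Pool.Agent.helper16.Multibrot

namespace PLY

theorem AL1_open : IsOpen St := by
  have : St = (fun ζ : ℂ => |ζ.im|) ⁻¹' Iio (Real.pi / 2) := rfl
  rw [this]
  exact isOpen_Iio.preimage (continuous_abs.comp Complex.continuous_im)

theorem AL1_logder (φ : ℝ → ℂ) (φ' : ℂ) (x : ℝ) (h : HasDerivAt φ φ' x) (h0 : φ x ≠ 0) :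
    HasDerivAt (fun t => Real.log ‖φ t‖) (φ' / φ x).re x := by
  have hre : HasDerivAt (fun t => (φ t).re) φ'.re x := by
    exact Complex.reCLM.hasFDerivAt.comp_hasDerivAt x h
  have him : HasDerivAt (fun t => (φ t).im) φ'.im x := by
    exact Complex.imCLM.hasFDerivAt.comp_hasDerivAt x h
  have hN : HasDerivAt (fun t => (φ t).re * (φ t).re + (φ t).im * (φ t).im)
      (φ'.re * (φ x).re + (φ x).re * φ'.re + (φ'.im * (φ x).im + (φ x).im * φ'.im)) x :=
    (hre.mul hre).add (him.mul him)
  have hNpos : (φ x).re * (φ x).re + (φ x).im * (φ x).im ≠ 0 := by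
    rw [← Complex.normSq_apply]
    exact (Complex.normSq_pos.mpr h0).ne'
  have h2 := (hN.log hNpos).const_mul (1 / 2 : ℝ)
  have h3 : (fun t => Real.log ‖φ t‖) = fun t => 1 / 2 * Real.log ((φ t).re * (φ t).re + (φ t).im * (φ t).im) := by
    funext t
    rw [← Complex.normSq_apply, Complex.normSq_eq_norm_sq, Real.log_pow]
    push_cast
    ring
  rw [h3]
  refine h2.congr_deriv ?_
  rw [Complex.div_re, Complex.normSq_apply]
  field_simp
  ring

/-- Module AL1. -/
theorem AL1 : AL1_stmt := by
  intro L a G hL ha hG hG2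
  set g : ℂ → ℂ := fun ζ => deriv G ζ / G ζ with hg
  have hder : DifferentiableOn ℂ (deriv G) St := hG.deriv AL1_open
  have hgc : ContinuousOn g St := by
    apply ContinuousOn.div hder.continuousOn hG.continuousOn
    intro ζ hζ
    exact (hG2 ζ hζ).1
  set e := Complex.measurableEquivRealProd with he
  have hmp := Complex.volume_preserving_equiv_real_prod
  set S : Set ℝ := Ico 0 L with hS
  set T : Set ℝ := Ioo (-(Real.pi / 2)) (Real.pi / 2) with hT
  have hSm : MeasurableSet S := measurableSet_Ico
  have hTm : MeasurableSet T := measurableSet_Ioo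
  set f : ℝ × ℝ → ENNReal := fun p => ENNReal.ofReal (‖g (e.symm p)‖ ^ 2) with hf
  have hesymm : ∀ p : ℝ × ℝ, e.symm p = (p.1 : ℂ) + p.2 * I := by
    intro p
    rw [he, Complex.measurableEquivRealProd_symm_apply]
    exact Complex.mk_eq_add_mul_I _ _
  have hRc : Rc L = e ⁻¹' (S ×ˢ T) := by
    ext ζ
    rw [mem_preimage, he, Complex.measurableEquivRealProd_apply, mem_prod, hS, hT, mem_Ico, mem_Ioo,
      Rc, mem_ofPred_eq, abs_lt]
    tauto
  have h1 : ∫⁻ ζ in Rc L, ENNReal.ofReal (‖deriv G ζ / G ζ‖ ^ 2) = ∫⁻ p in S ×ˢ T, f p := by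
    rw [hRc, ← hmp.setLIntegral_comp_preimage_emb e.measurableEmbedding f]
    apply lintegral_congr
    intro ζ
    rw [hf]
    simp only
    rw [show e.symm (Complex.measurableEquivRealProd ζ) = ζ from e.symm_apply_apply ζ]
  have hcont : ContinuousOn (fun p : ℝ × ℝ => ‖g (e.symm p)‖ ^ 2) (S ×ˢ T) := by
    apply ContinuousOn.pow
    apply ContinuousOn.norm
    apply hgc.comp
    · have : (⇑e.symm : ℝ × ℝ → ℂ) = fun p => (p.1 : ℂ) + p.2 * I := by
        funext p
        exact hesymm p
      rw [this]
      fun_prop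
    · intro p hp
      rw [hesymm, St, mem_ofPred_eq]
      have := hp.2
      rw [hT, mem_Ioo] at this
      simp only [add_im, ofReal_im, mul_im, ofReal_re, I_im, mul_one, I_re, mul_zero, add_zero,
        zero_add]
      rw [abs_lt]
      exact this
  have hfm : AEMeasurable f ((volume : Measure (ℝ × ℝ)).restrict (S ×ˢ T)) := by
    apply AEMeasurable.ennreal_ofReal
    exact hcont.aemeasurable (hSm.prod hTm)
  have h2 : ∫⁻ p in S ×ˢ T, f p = ∫⁻ y in T, ∫⁻ x in S, f (x, y) := by
    have hr : (volume : Measure (ℝ × ℝ)).restrict (S ×ˢ T) = (volume.restrict S).prod (volume.restrict T) := by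
      rw [Measure.prod_restrict]
      rfl
    rw [hr] at hfm ⊢
    exact lintegral_prod_symm f hfm
  -- one line
  have h3 : ∀ y ∈ T, ENNReal.ofReal (a ^ 2) ≤ ENNReal.ofReal L * ∫⁻ x in S, f (x, y) := by
    intro y hy
    have hmem : ∀ x : ℝ, (x : ℂ) + y * I ∈ St := by
      intro x
      rw [St, mem_ofPred_eq]
      rw [hT, mem_Ioo] at hy
      simp only [add_im, ofReal_im, mul_im, ofReal_re, I_im, mul_one, I_re, mul_zero, add_zero,
        zero_add]
      rw [abs_lt]
      exact hy
    have hline : Continuous fun x : ℝ => g ((x : ℂ) + y * I) := by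
      rw [← continuousOn_univ]
      apply hgc.comp (by fun_prop)
      intro x _
      exact hmem x
    set φ : ℝ → ℂ := fun x => G ((x : ℂ) + y * I) with hφ
    have hφd : ∀ x : ℝ, HasDerivAt φ (deriv G ((x : ℂ) + y * I)) x := by
      intro x
      have hd : HasDerivAt G (deriv G ((x : ℂ) + y * I)) ((x : ℂ) + y * I) :=
        ((hG _ (hmem x)).differentiableAt (AL1_open.mem_nhds (hmem x))).hasDerivAt
      have hl : HasDerivAt (fun x : ℝ => (x : ℂ) + y * I) 1 x := by
        have := (Complex.ofRealCLM.hasDerivAt (x := x)).add_const ((y : ℂ) * I)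
        simpa using this
      have := hd.comp x hl
      rw [mul_one] at this
      exact this
    have hlog : ∀ x : ℝ, HasDerivAt (fun t => Real.log ‖φ t‖) (g ((x : ℂ) + y * I)).re x := by
      intro x
      exact AL1_logder φ _ x (hφd x) (hG2 _ (hmem x)).1
    have hFTC : ∫ x in (0 : ℝ)..L, (g ((x : ℂ) + y * I)).re = a := by
      rw [intervalIntegral.integral_eq_sub_of_hasDerivAt (f := fun t => Real.log ‖φ t‖)]
      · have h5 := (hG2 _ (hmem 0)).2
        have h6 : φ L = G ((((0 : ℝ) : ℂ) + y * I) + L) := by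
          rw [hφ]
          simp only
          congr 1
          push_cast
          ring
        have h7 : φ 0 = G (((0 : ℝ) : ℂ) + y * I) := rfl
        rw [h6, h5, ← h7, Real.log_mul (Real.exp_pos a).ne', Real.log_exp]
        · ring
        · rw [h7]
          exact norm_ne_zero_iff.mpr (hG2 _ (hmem 0)).1
      · intro x _
        exact hlog x
      · exact (Complex.continuous_re.comp hline).intervalIntegrable _ _
    have hge : a ^ 2 / L ≤ ∫ x in (0 : ℝ)..L, ‖g ((x : ℂ) + y * I)‖ ^ 2 := by
      have h8 : ∫ x in (0 : ℝ)..L, (2 * (a / L) * (g ((x : ℂ) + y * I)).re - (a / L) ^ 2) ≤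
          ∫ x in (0 : ℝ)..L, ‖g ((x : ℂ) + y * I)‖ ^ 2 := by
        apply intervalIntegral.integral_mono_on hL.le
        · exact ((continuous_const.mul (Complex.continuous_re.comp hline)).sub
            continuous_const).intervalIntegrable _ _
        · exact (hline.norm.pow 2).intervalIntegrable _ _
        · intro x _
          have h9 : (g ((x : ℂ) + y * I)).re ^ 2 ≤ ‖g ((x : ℂ) + y * I)‖ ^ 2 := by
            rw [← sq_abs]
            gcongr
            exact Complex.abs_re_le_norm _
          nlinarith [sq_nonneg ((g ((x : ℂ) + y * I)).re - a / L)]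
      have h10 : ∫ x in (0 : ℝ)..L, (2 * (a / L) * (g ((x : ℂ) + y * I)).re - (a / L) ^ 2) =
          a ^ 2 / L := by
        rw [intervalIntegral.integral_sub, intervalIntegral.integral_const_mul, hFTC,
          intervalIntegral.integral_const]
        · simp only [sub_zero, smul_eq_mul]
          field_simp
          ring
        · exact (continuous_const.mul (Complex.continuous_re.comp hline)).intervalIntegrable _ _
        · exact intervalIntegrable_const
      linarith
    have h11 : ∫⁻ x in S, f (x, y) = ENNReal.ofReal (∫ x in (0 : ℝ)..L, ‖g ((x : ℂ) + y * I)‖ ^ 2) := by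
      rw [intervalIntegral.integral_of_le hL.le, ← integral_Ico_eq_integral_Ioc,
        ofReal_integral_eq_lintegral_ofReal]
      · apply lintegral_congr
        intro x
        rw [hf]
        simp only
        rw [hesymm]
      · have : IntegrableOn (fun x : ℝ => ‖g ((x : ℂ) + y * I)‖ ^ 2) (Icc 0 L) :=
          (hline.norm.pow 2).continuousOn.integrableOn_compact isCompact_Icc
        exact this.mono_set Ico_subset_Icc_self
      · exact Filter.Eventually.of_forall fun x => by positivity
    rw [h11, ← ENNReal.ofReal_mul hL.le]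
    apply ENNReal.ofReal_le_ofReal
    rw [div_le_iff₀ hL] at hge
    linarith
  rw [h1, h2]
  have hvol : (volume : Measure ℝ) T = ENNReal.ofReal Real.pi := by
    rw [hT, Real.volume_Ioo]
    congr 1
    ring
  calc ENNReal.ofReal (Real.pi * a ^ 2) = ∫⁻ _ in T, ENNReal.ofReal (a ^ 2) := by
        rw [lintegral_const, Measure.restrict_apply MeasurableSet.univ, univ_inter, hvol,
          ← ENNReal.ofReal_mul (by positivity), mul_comm]
    _ ≤ ∫⁻ y in T, ENNReal.ofReal L * ∫⁻ x in S, f (x, y) := setLIntegral_mono' hTm h3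
    _ = ENNReal.ofReal L * ∫⁻ y in T, ∫⁻ x in S, f (x, y) :=
        lintegral_const_mul' _ _ ENNReal.ofReal_ne_top

end PLY
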